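import Pool.Agent.Helper57.THA.St
import Pool.Agent.Helper79.LBR.Crn

/-! [UNIQ] for THEOREM A: untilted coordinates have untilted frames (the frame is unique up to small polynomials). -/

set_option autoImplicit false

namespace Pool.Agent.Helper46.THA

open Finset Filter Topology Pool.Agent.Helper69.RK Pool.Agent.Helper31.EC Pool.Agent.Helper31.EC.Sp
open Pool.Agent.Helper31.EC.QS Pool.Agent.Helper57.TA Pool.Agent.Helper13.AM Pool.Agent.Helper57.THA
open Pool.Agent.Helper79.WLK (sh)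
open Pool.Agent.Helper79.LBR (WS wk bx Kp)

noncomputable section

section alg

variable {A : Type*} [CommRing A] {σ τ : Type*}

/-- substitution into polynomials which use only some variables -/
theorem aeval_supported {T : Set τ} {φ : σ → MvPolynomial τ A} {P : MvPolynomial σ A}
    (h : ∀ n, P.coeff n ≠ 0 → ∀ a, n a ≠ 0 → φ a ∈ MvPolynomial.supported A T) :
    MvPolynomial.aeval φ P ∈ MvPolynomial.supported A T := by
  rw [MvPolynomial.aeval_def, MvPolynomial.eval₂_eq]
  apply Subalgebra.sum_mem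
  intro n hn
  apply Subalgebra.mul_mem
  · exact Subalgebra.algebraMap_mem _ _
  · apply Subalgebra.prod_mem
    intro a ha
    exact Subalgebra.pow_mem _ (h n (MvPolynomial.mem_support_iff.mp hn) a (Finsupp.mem_support_iff.mp ha)) _

theorem mem_supported_of {T : Set σ} {P : MvPolynomial σ A} (h : ∀ n, P.coeff n ≠ 0 → ∀ a, n a ≠ 0 → a ∈ T) :
    P ∈ MvPolynomial.supported A T := by
  rw [MvPolynomial.mem_supported]
  intro a ha
  rw [Finset.mem_coe, MvPolynomial.mem_vars_iff_mem_support] at ha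
  obtain ⟨n, hn, hna⟩ := ha
  exact h n (MvPolynomial.mem_support_iff.mp hn) a (Finsupp.mem_support_iff.mp hna)

end alg

variable {S : Sp} {d N r : ℕ} {c : CD S d N r} {w : Fin N → ℝ} {z : Fin N} {ρ s : ℝ} {H : HH S d N} {j : Fin N}

/-- the embedding of the lower variables -/
def emb (d : ℕ) (w : Fin N → ℝ) (j : Fin N) : Fin (d + 1) ⊕ Kp w j → Fin (d + 1) ⊕ Fin N := Sum.map id Subtype.val

theorem emb_inj : Function.Injective (emb d w j) := Function.injective_id.sumMap Subtype.val_injective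

/-- only lower variables occur in the frame -/
theorem Ph_supported (hc : c.Ax w z ρ) (hH : Tri w H) :
    Ph c H s j ∈ MvPolynomial.supported (QS S) (Set.range (emb d w j)) := by
  have hF : ∀ l, w l ≤ w j → c.F s l ∈ MvPolynomial.supported (QS S) (Set.range (emb d w j)) := by
    intro l hl
    apply mem_supported_of
    rintro n hn (a | l') ha
    · exact ⟨Sum.inl a, rfl⟩
    · exact ⟨Sum.inr ⟨l', (Helper79.LBR.F_low hc.bx hc.w1 s l n hn l' ha).trans_le hl⟩, rfl⟩
  unfold Ph
  apply Subalgebra.sub_mem _ (hF j le_rfl)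
  apply aeval_supported
  rintro n hn (a | l) ha
  · show MvPolynomial.C (c.q0 s a) + MvPolynomial.X (Sum.inl a) ∈ _
    apply Subalgebra.add_mem
    · exact Subalgebra.algebraMap_mem _ _
    · exact MvPolynomial.X_mem_supported.mpr ⟨Sum.inl a, rfl⟩
  · have hl := hH.low j n hn l ha
    show c.F s l + MvPolynomial.X (Sum.inr l) ∈ _
    apply Subalgebra.add_mem _ (hF l hl.le)
    exact MvPolynomial.X_mem_supported.mpr ⟨Sum.inr ⟨l, hl⟩, rfl⟩

/-- value of the frame of the changed coordinate -/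
theorem eval_Ph (hc : c.Ax w z ρ) (h0 : 0 ≤ s) (h1 : w z * s ≤ 1) (H : HH S d N) (j : Fin N) :
    MvPolynomial.eval (Sum.elim (dq c s) (c.γ s)) (Ph c H s j) = c.cR H j - c.γ s j := by
  unfold Ph CD.cR
  rw [map_sub, eval_sbs]
  have e1 : (fun a => MvPolynomial.eval (Sum.elim (dq c s) (c.γ s))
      ((Sum.elim (fun a => MvPolynomial.C (c.q0 s a) + MvPolynomial.X (Sum.inl a))
        (fun l => c.F s l + MvPolynomial.X (Sum.inr l)) :
          Fin (d + 1) ⊕ Fin N → MvPolynomial (Fin (d + 1) ⊕ Fin N) (QS S)) a)) = c.pt := by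
    funext a
    rcases a with a | l
    · rw [Sum.elim_inl, map_add, MvPolynomial.eval_C, MvPolynomial.eval_X, Sum.elim_inl]
      show c.q0 s a + (c.q a - c.q0 s a) = c.q a
      ring
    · rw [Sum.elim_inr, map_add, MvPolynomial.eval_X, Sum.elim_inr]
      exact (hc.bx.fR s h0 h1 l).symm
  rw [e1]
  have e2 : MvPolynomial.eval (Sum.elim (dq c s) (c.γ s)) (c.F s j) = c.R j - c.γ s j :=
    eq_sub_of_add_eq (hc.bx.fR s h0 h1 j).symm
  rw [e2]
  ring

/-- the coefficients of the frame are known to the box -/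
theorem Ph_PK (hc : c.Ax w z ρ) (hH : Tri w H) : Ph c H s j ∈ PK (c.K s) := by
  have hF : ∀ l, c.F s l ∈ PK (c.K s) := fun l n => (hc.bx.litF s l n).dg_le (hc.bx.bdd s) le_rfl
  have hq : ∀ a, dg (c.q0 s a) 1 ≤ c.K s := fun a => (hc.bx.litq s a).dg_le (hc.bx.bdd s) le_rfl
  unfold Ph
  apply (PK _).sub_mem (hF j)
  apply sbs_PK (fun n => (hH.real j n).trans bot_le)
  rintro (a | l)
  · exact (PK _).add_mem (C_mem (hq a)) (X_mem _ _)
  · exact (PK _).add_mem (hF l) (X_mem _ _)

/-- SMALL POLYNOMIALS IN THE LOWER BOX COORDINATES -/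
theorem ws_of_eval (hc : c.Ax w z ρ) (h0 : 0 ≤ s) (h1 : w z * s < 1) {Q : MvPolynomial (Fin (d + 1) ⊕ Kp w j) (QS S)}
    (hQ : Q ∈ PK (c.K s)) {κ : ℝ} (hκ : κ ≤ 1) (hev : MvPolynomial.eval (bx c w j s) Q ∈ Id S κ) :
    WS (wk d w j) s κ Q := by
  have hb := Helper79.LBR.bx_mem (j := j) hc.bx h0 h1.le
  have hw0 := Helper79.LBR.wk_nonneg (d := d) (j := j) hc.w1
  have hw1 := Helper79.LBR.wk_le (d := d) (j := j) hc.w1 hc.wz h0 h1.le
  choose ξ hξ _ using fun a => exists_div' (mul_nonneg (hw0 a) h0) (hw1 a) (hb a)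
  have hl : ∀ a : Fin (d + 1) ⊕ Kp w j, 1 - w z * s ≤ 1 - wk d w j a * s := by
    rintro (a | l)
    · show 1 - w z * s ≤ 1 - 1 * s
      have := mul_le_mul_of_nonneg_right (hc.w1 z).le h0
      linarith
    · have := mul_le_mul_of_nonneg_right (hc.wz l.1) h0
      show 1 - w z * s ≤ 1 - w l.1 * s
      linarith
  have hl0 : 0 < 1 - w z * s := by linarith
  have hl1 : 1 - w z * s ≤ 1 := by
    have := mul_nonneg (hc.w0 z).le h0
    linarith
  have hR := Helper79.LBR.full_xi hc h0 h1.le hl0.le hl hξ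
  intro m
  refine small_raw hw0 h0 hl0 hl1 hR (r₀ := 1) (r := κ) hκ le_rfl (PKr_of_PK le_rfl hQ) ?_ m
  have e1 : (fun a => sc S (wk d w j a * s) * ξ a) = bx c w j s := funext fun a => (hξ a).symm
  rw [e1]
  exact hev

theorem h0_rename (P : MvPolynomial (Fin (d + 1)) (QS S)) :
    h0 (MvPolynomial.rename Sum.inl P : MvPolynomial (Fin (d + 1) ⊕ Fin N) (QS S)) = P :=
  Helper79.LBR.hz0_rename P

theorem h0_sub (P Q : MvPolynomial (Fin (d + 1) ⊕ Fin N) (QS S)) : h0 (P - Q) = h0 P - h0 Q := by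
  unfold h0
  rw [map_sub]

theorem sh_sub {β : Type} (x : β → QS S) (P Q : MvPolynomial β (QS S)) : sh x (P - Q) = sh x P - sh x Q := by
  unfold sh
  rw [map_sub]

/-- the frame minus the horizontal polynomial is small, in weights -/
theorem ws_Ph (hc : c.Ax w z ρ) (hH : Tri w H) (h0 : 0 ≤ s) (h1 : w z * s < 1)
    {Ψ : MvPolynomial (Fin (d + 1)) (QS S)} (hΨ : Ψ ∈ PK (c.K s))
    (he : c.cR H j - MvPolynomial.eval (dq c s) Ψ ∈ Id S (w j * s)) :
    WS (Sum.elim (fun _ : Fin (d + 1) => (1 : ℝ)) w) s (w j * s) (Ph c H s j - MvPolynomial.rename Sum.inl Ψ) := by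
  have hle : w j * s ≤ 1 := (mul_le_mul_of_nonneg_right (hc.wz j) h0).trans h1.le
  obtain ⟨P', hP'⟩ := MvPolynomial.exists_rename_eq_of_vars_subset_range (Ph c H s j) (emb d w j) emb_inj
    (MvPolynomial.mem_supported.mp (Ph_supported hc hH))
  set Q : MvPolynomial (Fin (d + 1) ⊕ Kp w j) (QS S) := P' - MvPolynomial.rename Sum.inl Ψ with hQ
  have hQr : MvPolynomial.rename (emb d w j) Q = Ph c H s j - MvPolynomial.rename Sum.inl Ψ := by
    rw [hQ, map_sub, hP', MvPolynomial.rename_rename]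
    rfl
  have hP'k : P' ∈ PK (c.K s) := by
    intro m
    have h2 := Ph_PK (j := j) (s := s) hc hH (m.mapDomain (emb d w j))
    rw [← hP', MvPolynomial.coeff_rename_mapDomain _ emb_inj] at h2
    exact h2
  have hQk : Q ∈ PK (c.K s) := (PK _).sub_mem hP'k (rename_PK hΨ _)
  have hev : MvPolynomial.eval (bx c w j s) Q ∈ Id S (w j * s) := by
    have e1 : MvPolynomial.eval (bx c w j s) P' = c.cR H j - c.γ s j := by
      rw [← eval_Ph hc h0 h1.le H j, ← hP', MvPolynomial.eval_rename]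
      congr 2
      funext a
      rcases a with a | l <;> rfl
    have e2 : MvPolynomial.eval (bx c w j s) (MvPolynomial.rename Sum.inl Ψ) = MvPolynomial.eval (dq c s) Ψ := by
      rw [MvPolynomial.eval_rename]
      rfl
    rw [hQ, map_sub, e1, e2]
    have e3 : c.cR H j - c.γ s j - MvPolynomial.eval (dq c s) Ψ =
        c.cR H j - MvPolynomial.eval (dq c s) Ψ - c.γ s j := by ring
    rw [e3]
    exact (Id S _).sub_mem he (hc.bx.fγ s h0 h1.le j)
  have h2 := ws_of_eval hc h0 h1 hQk hle hev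
  rw [← hQr]
  have h3 : MvPolynomial.rename (emb d w j) Q = MvPolynomial.aeval (fun a => MvPolynomial.X (emb d w j a)) Q := by
    have h4 : MvPolynomial.rename (R := QS S) (emb d w j) =
        MvPolynomial.aeval (fun a => MvPolynomial.X (emb d w j a)) := by
      apply MvPolynomial.algHom_ext
      intro a
      rw [MvPolynomial.rename_X, MvPolynomial.aeval_X]
    rw [h4]
  rw [h3]
  refine WS.aeval ?_ h0 h2 fun a => ?_
  · rintro (a | l)
    · exact zero_le_one
    · exact (hc.w0 l).le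
  · have h4 : wk d w j a = (Sum.elim (fun _ : Fin (d + 1) => (1 : ℝ)) w) (emb d w j a) := by
      rcases a with a | l <;> rfl
    rw [h4]
    exact WS.X _

/-- **[UNIQ]** -/
theorem st_UNIQ : ST_UNIQ := by
  rintro S d N r c w z ρ hc H hH Jh s j h0' h1 ⟨Ψ, hΨ, he, hJ⟩
  have h2 := ws_Ph hc hH h0' h1 hΨ he
  constructor
  · rintro m ⟨l, hl⟩
    have h3 := h2 m
    have h4 : (MvPolynomial.rename Sum.inl Ψ : MvPolynomial (Fin (d + 1) ⊕ Fin N) (QS S)).coeff m = 0 := by
      apply MvPolynomial.coeff_rename_eq_zero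
      rintro u rfl
      exfalso
      apply hl
      rw [Finsupp.mapDomain_of_notMem_range]
      rintro ⟨a, ha⟩
      exact Sum.inl_ne_inr ha
    rw [MvPolynomial.coeff_sub, h4, sub_zero] at h3
    have e1 : (w j - wN w m) * s = w j * s - wgt (Sum.elim (fun _ : Fin (d + 1) => (1 : ℝ)) w) m * s := by
      unfold wN
      ring
    rw [e1]
    exact h3
  · intro n hn
    have h3 : WS (fun _ : Fin (d + 1) => (1 : ℝ)) s (w j * s) (h0 (Ph c H s j) - Ψ) := by
      rw [← h0_rename (N := N) Ψ, ← h0_sub]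
      unfold h0
      refine WS.aeval (fun _ => zero_le_one) h0' h2 ?_
      rintro (a | l)
      · exact WS.X a
      · exact WS.zero
    have h4 : WS (fun _ : Fin (d + 1) => (1 : ℝ)) s (w j * s) (sh (dq c s) (h0 (Ph c H s j)) - sh (dq c s) Ψ) := by
      rw [← sh_sub]
      unfold sh
      refine WS.aeval (fun _ => zero_le_one) h0' h3 fun a => ?_
      refine WS.add (WS.C (fun _ => zero_le_one) h0' ?_) (WS.X a)
      rw [one_mul]
      exact hc.bx.fq s h0' h1.le a
    have h5 := h4 n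
    have e1 : (w j - w1 n) * s = w j * s - wgt (fun _ : Fin (d + 1) => (1 : ℝ)) n * s := by
      unfold w1
      ring
    have h6 := hJ n hn
    rw [e1] at h6 ⊢
    rw [MvPolynomial.coeff_sub] at h5
    have h7 := (Id S _).add_mem h5 h6
    rwa [sub_add_sub_cancel] at h7

end

end Pool.Agent.Helper46.THA
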